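import Pool.Agent.N748.OL.Main

set_option autoImplicit false

/-!
# The central limit theorem on the critical line in the moment measures of all orders
-/

namespace Pool.Agent.Results.MP_973905_nt.GaussianOnTheLine

open MeasureTheory Filter Topology

/-- the modulus of zeta on the critical line at height `t` -/
noncomputable def z0 (t : ℝ) : ℝ := ‖riemannZeta (1 / 2 + t * Complex.I)‖

/-- the modulus of zeta at distance `d` from the critical line and height `t` -/
noncomputable def z (d t : ℝ) : ℝ := ‖riemannZeta (1 / 2 + d + t * Complex.I)‖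

/-- the heights `0 ≤ t ≤ T` with `|ζ(1/2 + d + it)| ≤ (2d)^{-V}` -/
def G (V d T : ℝ) : Set ℝ := {t : ℝ | t ∈ Set.Icc 0 T ∧ z d t ≤ (2 * d) ^ (-V)}

/-- the probability of the set `S` of heights in the moment measure of order `2k`, the probability measure on
`G V d T` whose density is proportional to `|ζ(1/2 + d + it)|^{2k}` -/
noncomputable def P (k V d T : ℝ) (S : Set ℝ) : ℝ :=
  (∫ t in G V d T ∩ S, z d t ^ (2 * k)) / ∫ t in G V d T, z d t ^ (2 * k)

/-- the normal distribution function -/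
noncomputable def Phi (x : ℝ) : ℝ := (ProbabilityTheory.gaussianReal 0 1 (Set.Iic x)).toReal

lemma adm {c : ℝ} {d : ℝ → ℝ} (hc : 0 < c) (hd0 : ∀ᶠ T : ℝ in atTop, 0 < d T)
    (hdc : ∀ᶠ T : ℝ in atTop, d T ≤ Real.log T ^ (-c))
    (hdL : Tendsto (fun T : ℝ => d T * Real.log T / Real.log (1 / d T) ^ 2) atTop atTop) :
    Pool.Agent.N748.MO.Adc c d := by
  refine ⟨⟨hd0, ?_, hdL⟩, hc, hdc⟩
  have h1 : Tendsto (fun T : ℝ => Real.log T ^ (-c)) atTop (𝓝 0) :=
    (tendsto_rpow_neg_atTop hc).comp Real.tendsto_log_atTop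
  exact squeeze_zero' (hd0.mono fun T h => h.le) hdc h1

/-- quotients of the two asymptotics -/
lemma quot {d N D : ℝ → ℝ} {a s l : ℝ} (ha : a ≠ 0) (hd0 : ∀ᶠ T : ℝ in atTop, 0 < d T)
    (h1 : Tendsto (fun T : ℝ => (2 * d T) ^ s * ((1 / T) * N T)) atTop (𝓝 (a * l)))
    (h2 : Tendsto (fun T : ℝ => (2 * d T) ^ s * ((1 / T) * D T)) atTop (𝓝 a)) :
    Tendsto (fun T : ℝ => N T / D T) atTop (𝓝 l) := by
  have h3 := h1.div h2 ha
  rw [mul_div_cancel_left₀ _ ha] at h3
  refine h3.congr' ?_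
  filter_upwards [hd0, eventually_gt_atTop 0] with T hT hT0
  have h4 : (0:ℝ) < (2 * d T) ^ s := Real.rpow_pos_of_pos (by linarith) _
  simp only [Pi.div_apply]
  rw [mul_div_mul_left _ _ h4.ne', mul_div_mul_left _ _ (one_div_pos.2 hT0).ne']

/-- Let `0 < d(T) ≤ (log T)^{-c}` for large `T` and `d log T / (log 1/d)^2 → ∞`, and let `k ≥ 1`, `V > k` be real.
(1) In the moment measure of order `2k` at distance `d` from the critical line the difference of
`log |ζ(1/2 + it)|` and `log |ζ(1/2 + d + it)|` is at most `η` with probability tending to `1`, for every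
`η = η(T)` with `η / log (2 + d log T) → ∞`.
(2) If `log (2 + d log T) = o((log log T)^{1/2})`, for instance `d = (log log T)^3 / log T`, then in this measure
`log |ζ(1/2 + it)|`, ON the critical line, is asymptotically normal with mean `k log log T` and variance
`(1/2) log log T`. -/
theorem result (c : ℝ) (hc : 0 < c) (d : ℝ → ℝ) (hd0 : ∀ᶠ T : ℝ in atTop, 0 < d T)
    (hdc : ∀ᶠ T : ℝ in atTop, d T ≤ Real.log T ^ (-c))
    (hdL : Tendsto (fun T : ℝ => d T * Real.log T / Real.log (1 / d T) ^ 2) atTop atTop)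
    (k V : ℝ) (hk : 1 ≤ k) (hV : k < V) :
    (∀ η : ℝ → ℝ, Tendsto (fun T : ℝ => η T / Real.log (2 + d T * Real.log T)) atTop atTop →
      Tendsto (fun T : ℝ => P k V (d T) T {t : ℝ | η T < |Real.log (z0 t) - Real.log (z (d T) t)|}) atTop (𝓝 0)) ∧
    (Tendsto (fun T : ℝ => Real.log (2 + d T * Real.log T) / Real.sqrt (Real.log (Real.log T))) atTop (𝓝 0) →
      ∀ x : ℝ, Tendsto (fun T : ℝ => P k V (d T) T {t : ℝ | Real.log (z0 t) ≤
        k * Real.log (Real.log T) + x * Real.sqrt (Real.log (Real.log T) / 2)}) atTop (𝓝 (Phi x))) := by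
  have hA := adm hc hd0 hdc hdL
  have ha : (Pool.Agent.N748.MG.aC (k : ℂ)).re ≠ 0 := by
    rw [Pool.Agent.N748.MG.aC_re]
    exact (Pool.Agent.N748.MG.aC_akR k).1.ne'
  have hden := Pool.Agent.N748.MG.tm1F d hA.toAd k V (by linarith) hV
  refine ⟨fun η hη => ?_, fun hl x => ?_⟩
  · have h := Pool.Agent.N748.OL.cprF c d hA k V hk η hη
    refine quot (s := k ^ 2) (l := 0) ha hd0 ?_ hden
    rw [mul_zero]
    exact h
  · have h := Pool.Agent.N748.OL.cltF c d hA k V hk hV hl x
    exact quot (s := k ^ 2) ha hd0 h hden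

end Pool.Agent.Results.MP_973905_nt.GaussianOnTheLine
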