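import Pool.Agent.N748.MG.Fin

set_option autoImplicit false

/-!
# Mod-Gaussian convergence of `log |ζ|` near the critical line
-/

namespace Pool.Agent.Results.MP_973905_nt.ModGaussian

open MeasureTheory Filter Topology

/-- the arithmetic factor of the moment conjecture for complex exponents,
`a(s) = ∏_p (1 - 1/p)^{s²} Σ_m (s (s+1) ... (s+m-1) / m!)² p^{-m}` -/
noncomputable def a (s : ℂ) : ℂ :=
  ∏' p : Nat.Primes, ((1 - 1 / (p : ℂ)) ^ (s ^ 2) *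
    ∑' m : ℕ, (∏ i ∈ Finset.range m, (s + i) / ((i : ℂ) + 1)) ^ 2 * (1 / (p : ℂ)) ^ m)

/-- the mean value of `|ζ(1/2+d+it)|^s`, `0 ≤ t ≤ T` -/
noncomputable def E (s : ℂ) (d T : ℝ) : ℂ :=
  (1 / T) * ∫ t in (0:ℝ)..T, ((‖riemannZeta (1 / 2 + d + t * Complex.I)‖ : ℝ) : ℂ) ^ s

theorem result (d : ℝ → ℝ) (hd0 : ∀ᶠ T : ℝ in atTop, 0 < d T) (hd : Tendsto d atTop (𝓝 0))
    (hdL : Tendsto (fun T : ℝ => d T * Real.log T / Real.log (1 / d T) ^ 2) atTop atTop) (R ε : ℝ) (hR : 0 < R)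
    (hε : 0 < ε) :
    ∀ᶠ T : ℝ in atTop, ∀ u : ℝ, |u| ≤ R →
      ‖(((2 * d T) ^ (-(u ^ 2 / 4)) : ℝ) : ℂ) * E (u * Complex.I) (d T) T - a (u * Complex.I / 2)‖ ≤ ε :=
  Pool.Agent.N748.MG.mgF d ⟨hd0, hd, hdL⟩ R hR ε hε

end Pool.Agent.Results.MP_973905_nt.ModGaussian
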