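import Mathlib
import Pool.Agent.N397.OL.Low
import Pool.Agent.Results.MP_973905_nt.AllRealOrders

/-!
# The moments of zeta of order `p > 1` and the values on ONE line (Gram points)

Let `p > 1` be real, `u ≠ 0`, and let `D p u S T` be the sum of `|ζ(1/2 + it)|^p` over the heights `S < t ≤ T`
(`t > 100`) at which `ζ(1/2 + it)` is a nonzero point of the single line `u ℝ` (for `u = 1`: the Gram points).
Unconditionally, with constants that depend only on `p`:

* in all intervals `[a, b]` at height about `T` the sum over one line and `log T` times the integral of `|ζ|^p` have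
  the same order of magnitude, up to a margin `2 log T` at the ends and a term of the size of the number of the
  points; the same for any two lines;
* in long intervals, and for `p ≥ 2` in all intervals of length between `(log T)^B` and `T`, the additive term is
  not needed;
* for `p ≥ 2` and `(log T)^B ≤ U ≤ T` the sum over one line in `(T, T + U]` is at least a constant times
  `U log T (log U)^(p²/4)`, uniformly in the direction of the line: the conjectured order of magnitude;
* for `A ≥ 0` the bound `O(T (log T)^A)` for the `p`-th moment on `[0, T]` is equivalent to the bound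
  `O(T (log T)^(A + 1))` for the sum over one line.

The sums over two perpendicular lines were known to be of this order for all `p > 0` (`AllRealOrders`); for one
line the boundedness of the discrete Hilbert transform on `ℓ^p`, `p > 1`, is used (project GP of helper188, which
no hand-in used, here in a local form).
-/

set_option autoImplicit false

open Filter Topology Set MeasureTheory

namespace Pool.Agent.Results.MP_973905_nt.OneLineMoments

/-- The value `ζ(1/2 + it)`. -/
noncomputable def z (t : ℝ) : ℂ := riemannZeta (1 / 2 + t * Complex.I)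

/-- The heights `t > 100` at which `ζ(1/2 + it)` is a nonzero point of the line `u ℝ`. -/
def Line (u : ℂ) : Set ℝ := {t | 100 < t ∧ ∃ r : ℝ, r ≠ 0 ∧ z t = r * u}

/-- The sum of `|ζ(1/2 + it)|^p` over the heights `S < t ≤ T` in `Line u`. -/
noncomputable def D (p : ℝ) (u : ℂ) (S T : ℝ) : ℝ := ∑ᶠ t ∈ Line u ∩ Ioc S T, ‖z t‖ ^ p

section proof

open Pool.Agent.W188.GP Pool.Agent.N397.OL

lemma line_eq (u : ℂ) : Line u = AllRealOrders.Pts u 1 := by
  ext t
  unfold Line AllRealOrders.Pts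
  simp only [mem_ofPred_eq]
  refine and_congr_right fun _ => ?_
  constructor
  · rintro ⟨r, hr, h⟩
    refine ⟨0, r, hr, ?_⟩
    simpa [AllRealOrders.z, z] using h
  · rintro ⟨j, r, hr, h⟩
    have e : Complex.exp (Real.pi * Complex.I * j / (1 : ℕ)) = (((-1 : ℝ) ^ j : ℝ) : ℂ) := by
      rw [Nat.cast_one, div_one, mul_comm, Complex.exp_nat_mul, Complex.exp_pi_mul_I]
      push_cast
      ring
    refine ⟨r * (-1) ^ j, mul_ne_zero hr (pow_ne_zero _ (by norm_num)), ?_⟩
    have h2 : z t = r * (u * Complex.exp (Real.pi * Complex.I * j / (1 : ℕ))) := h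
    rw [h2, e]
    push_cast
    ring

lemma D_nodes {u : ℂ} (hu : u ≠ 0) : ∃ γ : ℝ, ∀ (p : ℝ) (a b : ℝ), 0 < p → 100 ≤ a → a ≤ b →
    D p u a b = DD p γ a b ∧ (Line u ∩ Ioc a b).Finite := by
  obtain ⟨γ, h⟩ := AllRealOrders.D_eq hu
  refine ⟨γ, fun p a b hp ha hab => ?_⟩
  obtain ⟨h1, h2⟩ := h p 1 a b hp le_rfl ha hab
  rw [line_eq]
  refine ⟨?_, h2⟩
  have e : D p u a b = AllRealOrders.D p u 1 a b := by
    unfold D AllRealOrders.D
    rw [line_eq]
    rfl
  rw [e, h1, Finset.sum_range_one]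
  congr 1
  simp

lemma z_ZZ (t : ℝ) : ‖z t‖ = ZZ t := rfl

end proof

/-- **Theorem.** (0) The sets of points are locally finite. (1) One line, the integral and another line, in all
intervals. (2) Long intervals. (3) `p ≥ 2`, short intervals: comparison without additive term, and the lower
bound. (4) Equivalence of the upper bounds. -/
theorem result :
    (∀ (u : ℂ) (a b : ℝ), u ≠ 0 → (Line u ∩ Ioc a b).Finite) ∧
    (∀ p : ℝ, 1 < p → ∃ C T₀ : ℝ, 0 < C ∧ ∀ (u v : ℂ) (T a b : ℝ), u ≠ 0 → v ≠ 0 → T₀ ≤ T → T ≤ a → a ≤ b →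
      b ≤ 8 * T →
      Real.log T * (∫ t in a..b, ‖z t‖ ^ p) ≤
        C * (D p u (a - 2 * Real.log T) (b + 2 * Real.log T) + ((b - a) * Real.log T + 1)) ∧
      D p u a b ≤ C * (Real.log T * (∫ t in (a - 2 * Real.log T)..(b + 2 * Real.log T), ‖z t‖ ^ p) +
        (b - a + 1) * T ^ (-(p / 3))) ∧
      D p v a b ≤
        C * (D p u (a - 2 * Real.log T) (b + 2 * Real.log T) + ((b - a) * Real.log T + 1))) ∧
    (∀ p : ℝ, 1 < p → ∃ C T₀ : ℝ, 0 < C ∧ ∀ (u : ℂ) (T : ℝ), u ≠ 0 → T₀ ≤ T →
      Real.log T * (∫ t in T..(8 * T), ‖z t‖ ^ p) ≤ C * D p u (T / 2) (16 * T) ∧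
      D p u T (8 * T) ≤ C * (Real.log T * ∫ t in (T / 2)..(16 * T), ‖z t‖ ^ p)) ∧
    (∀ p : ℝ, 2 ≤ p → ∃ c B T₀ : ℝ, 0 < c ∧ 0 < B ∧ ∀ (u : ℂ) (T U : ℝ), u ≠ 0 → T₀ ≤ T →
      Real.log T ^ B ≤ U → U ≤ T →
      c * (Real.log T * ∫ t in (T + 2 * Real.log T)..(T + U - 2 * Real.log T), ‖z t‖ ^ p) ≤ D p u T (T + U) ∧
      c * (U * Real.log T * Real.log U ^ (p ^ 2 / 4)) ≤ D p u T (T + U)) ∧
    (∀ (p A : ℝ) (u : ℂ), 1 < p → 0 ≤ A → u ≠ 0 →
      ((∃ B : ℝ, ∀ᶠ T : ℝ in atTop, (∫ t in (0 : ℝ)..T, ‖z t‖ ^ p) ≤ B * (T * Real.log T ^ A)) ↔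
        ∃ B : ℝ, ∀ᶠ T : ℝ in atTop, D p u 100 T ≤ B * (T * Real.log T ^ (A + 1)))) := by
  refine ⟨fun u a b hu => ?_, fun p hp => ?_, fun p hp => ?_, fun p hp => ?_, fun p A u hp hA hu => ?_⟩
  · obtain ⟨γ, h⟩ := D_nodes hu
    refine (h 1 100 (max b 100) one_pos le_rfl (le_max_right _ _)).2.subset ?_
    rintro t ⟨h1, h2⟩
    exact ⟨h1, h1.1, h2.2.trans (le_max_left _ _)⟩
  · obtain ⟨C1, T1, hC1, h1⟩ := Pool.Agent.N397.OL.finL hp
    obtain ⟨C2, T2, hC2, h2⟩ := Pool.Agent.N397.OL.llL hp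
    obtain ⟨C3, T3, hC3, h3⟩ := Pool.Agent.W188.MZ.a_cmp p (by linarith)
    obtain ⟨T4, hT4⟩ := eventually_atTop.1 AllRealOrders.log_small
    refine ⟨max C1 (max C2 C3), max (max T1 T2) (max (max T3 T4) 400), by positivity,
      fun u v T a b hu hv hT hTa hab hbT => ?_⟩
    have k1 : T1 ≤ T := ((le_max_left _ _).trans (le_max_left _ _)).trans hT
    have k2 : T2 ≤ T := ((le_max_right _ _).trans (le_max_left _ _)).trans hT
    have k3 : T3 ≤ T := (((le_max_left _ _).trans (le_max_left _ _)).trans (le_max_right _ _)).trans hT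
    have k4 := hT4 T ((((le_max_right _ _).trans (le_max_left _ _)).trans (le_max_right _ _)).trans hT)
    have k5 : 400 ≤ T := ((le_max_right _ _).trans (le_max_right _ _)).trans hT
    have hL : 0 ≤ Real.log T := Real.log_nonneg (by linarith)
    obtain ⟨γ, hγ⟩ := D_nodes hu
    obtain ⟨γ', hγ'⟩ := D_nodes hv
    have hp0 : 0 < p := by linarith
    rw [(hγ p (a - 2 * Real.log T) (b + 2 * Real.log T) hp0 (by linarith) (by linarith)).1,
      (hγ p a b hp0 (by linarith) hab).1, (hγ' p a b hp0 (by linarith) hab).1]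
    have hR : 0 ≤ Pool.Agent.W188.GP.DD p γ (a - 2 * Real.log T) (b + 2 * Real.log T) + ((b - a) * Real.log T + 1) := by
      have := AllRealOrders.DD_nonneg p γ (a - 2 * Real.log T) (b + 2 * Real.log T)
      have := mul_nonneg (by linarith : 0 ≤ b - a) hL
      linarith
    have hR2 : 0 ≤ Real.log T * (∫ t in (a - 2 * Real.log T)..(b + 2 * Real.log T), ‖z t‖ ^ p) +
        (b - a + 1) * T ^ (-(p / 3)) := by
      have e1 : 0 ≤ ∫ t in (a - 2 * Real.log T)..(b + 2 * Real.log T), ‖z t‖ ^ p :=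
        intervalIntegral.integral_nonneg (by linarith) fun t _ => Real.rpow_nonneg (norm_nonneg _) _
      have e2 : 0 ≤ T ^ (-(p / 3)) := Real.rpow_nonneg (by linarith) _
      have e3 := mul_nonneg (by linarith : 0 ≤ b - a + 1) e2
      have e4 := mul_nonneg hL e1
      linarith
    refine ⟨?_, ?_, ?_⟩
    · refine (h1 T γ a b k1 hTa hab hbT).trans ?_
      exact mul_le_mul_of_nonneg_right (le_max_left _ _) hR
    · refine (h3 T γ a b k3 (by linarith) hab (by linarith)).2.trans ?_
      exact mul_le_mul_of_nonneg_right ((le_max_right _ _).trans (le_max_right _ _)) hR2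
    · refine (h2 T γ γ' a b k2 hTa hab hbT).trans ?_
      exact mul_le_mul_of_nonneg_right ((le_max_left _ _).trans (le_max_right _ _)) hR
  · obtain ⟨C, T₀, hC, h⟩ := Pool.Agent.W188.GP.a_fin p hp
    refine ⟨C, max T₀ 200, hC, fun u T hu hT => ?_⟩
    obtain ⟨γ, hγ⟩ := D_nodes hu
    have k1 : T₀ ≤ T := (le_max_left _ _).trans hT
    have k2 : 200 ≤ T := (le_max_right _ _).trans hT
    rw [(hγ p (T / 2) (16 * T) (by linarith) (by linarith) (by linarith)).1,
      (hγ p T (8 * T) (by linarith) (by linarith) (by linarith)).1]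
    exact h T γ k1
  · obtain ⟨c, B, T₀, hc, hB, h⟩ := Pool.Agent.N397.OL.lowL hp
    refine ⟨c, B, max T₀ 200, hc, hB, fun u T U hu hT hU hUT => ?_⟩
    obtain ⟨γ, hγ⟩ := D_nodes hu
    have k1 : T₀ ≤ T := (le_max_left _ _).trans hT
    have k2 : 200 ≤ T := (le_max_right _ _).trans hT
    have k3 : 0 ≤ U := le_trans (Real.rpow_nonneg (Real.log_nonneg (by linarith)) _) hU
    rw [(hγ p T (T + U) (by linarith) (by linarith) (by linarith)).1]
    exact h T γ U k1 hU hUT
  · obtain ⟨γ, hγ⟩ := D_nodes hu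
    have h := Pool.Agent.N397.OL.eqvL hp hA γ
    have e : ∀ T : ℝ, 100 ≤ T → D p u 100 T = Pool.Agent.W188.GP.DD p γ 100 T := fun T hT =>
      (hγ p 100 T (by linarith) le_rfl hT).1
    refine Iff.trans h ?_
    constructor
    · rintro ⟨B, hB⟩
      refine ⟨B, ?_⟩
      filter_upwards [hB, eventually_ge_atTop 100] with T h1 h2
      rw [e T h2]
      exact h1
    · rintro ⟨B, hB⟩
      refine ⟨B, ?_⟩
      filter_upwards [hB, eventually_ge_atTop 100] with T h1 h2
      rw [e T h2] at h1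
      exact h1

end Pool.Agent.Results.MP_973905_nt.OneLineMoments
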